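import Pool.Agent.H7.LD.Stmts

/-!
Row CQT of the board `ld16` (MP_fd41b2_co; from `Pool.Agent.H55.IA.CQT`): the cliques which leave the block are paid for.
-/

set_option autoImplicit false

open Finset

namespace Pool.LD7

open Pool.Agent.H23.KT Pool.Agent.H46.KW Pool.KQ Pool.GT7 Pool.GU7 Pool.HZ7 Pool.IA7

namespace CQT55

theorem dbl {V : Type} [Fintype V] [DecidableEq V] (G : SimpleGraph V) (A T : Finset V) :
    ∑ q ∈ A, (nb G T q).card = ∑ z ∈ T, (nb G A z).card := by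
  classical
  have h := Finset.sum_card_bipartiteAbove_eq_sum_card_bipartiteBelow (s := A) (t := T) G.Adj
  have e1 : ∀ q ∈ A, (nb G T q).card = (T.bipartiteAbove G.Adj q).card := by
    intro q _
    have e : nb G T q = T.bipartiteAbove G.Adj q := by
      ext z
      rw [mem_nb, Finset.mem_bipartiteAbove]
    rw [e]
  have e2 : ∀ z ∈ T, (nb G A z).card = (A.bipartiteBelow G.Adj z).card := by
    intro z _
    have e : nb G A z = A.bipartiteBelow G.Adj z := by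
      ext q
      rw [mem_nb, Finset.mem_bipartiteBelow, SimpleGraph.adj_comm]
    rw [e]
  exact (Finset.sum_congr rfl e1).trans (h.trans (Finset.sum_congr rfl e2).symm)

theorem pow_step (a : ℝ) (ha : 1 ≤ a) (w : ℕ) :
    (a + 1) ^ (w + 1) ≤ a ^ (w + 1) + (2 ^ (w + 1) - 1) * a ^ w := by
  induction w with
  | zero => norm_num
  | succ w ih =>
    have h1 : (a + 1) ^ (w + 1 + 1) ≤ (a ^ (w + 1) + (2 ^ (w + 1) - 1) * a ^ w) * (a + 1) := by
      rw [pow_succ]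
      exact mul_le_mul_of_nonneg_right ih (by linarith)
    have h2 : (a ^ (w + 1) + (2 ^ (w + 1) - 1) * a ^ w) * (a + 1) =
        a ^ (w + 1 + 1) + 2 ^ (w + 1) * a ^ (w + 1) + (2 ^ (w + 1) - 1) * a ^ w := by ring
    have h3 : a ^ w ≤ a ^ (w + 1) := pow_le_pow_right₀ ha (Nat.le_succ w)
    have h4 : (1 : ℝ) ≤ 2 ^ (w + 1) := one_le_pow₀ (by norm_num)
    have h5 : (2 ^ (w + 1) - 1) * a ^ w ≤ (2 ^ (w + 1) - 1) * a ^ (w + 1) :=
      mul_le_mul_of_nonneg_left h3 (by linarith)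
    have h6 : (2 ^ (w + 1 + 1) - 1 : ℝ) * a ^ (w + 1) =
        2 ^ (w + 1) * a ^ (w + 1) + (2 ^ (w + 1) - 1) * a ^ (w + 1) := by ring
    rw [h6]
    linarith

/-- Zykov bound for the outer vertices. -/
theorem zyk_out (p w : ℕ) (hw : 1 ≤ w) (n a : ℝ) (hn : 0 ≤ n) (ha : 0 ≤ a)
    (hna : n ≤ ((p : ℝ) + 3) * (a + 1)) :
    ((p + 3).choose (w + 2) : ℝ) * (n / ((p + 3 : ℕ) : ℝ)) ^ (w + 2) ≤
      c1 p w / 3 * (a + 1) ^ (w + 1) * n := by
  have hb : (0 : ℝ) < (p : ℝ) + 3 := by positivity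
  have e1 : ((p + 3 : ℕ) : ℝ) = (p : ℝ) + 3 := by push_cast; ring
  rw [e1]
  have h1 : ((p : ℝ) + 3) * ((p + 2).choose (w + 1) : ℝ) =
      ((p + 3).choose (w + 2) : ℝ) * ((w : ℝ) + 2) := by
    have := Nat.add_one_mul_choose_eq (p + 2) (w + 1)
    have h : ((p + 3) * (p + 2).choose (w + 1) : ℕ) = (p + 3).choose (w + 2) * (w + 2) := this
    have h' : (((p + 3) * (p + 2).choose (w + 1) : ℕ) : ℝ) =
        (((p + 3).choose (w + 2) * (w + 2) : ℕ) : ℝ) := by rw [h]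
    push_cast at h'
    linarith
  obtain ⟨y, hy⟩ : ∃ y : ℝ, y = n / ((p : ℝ) + 3) := ⟨_, rfl⟩
  have hy0 : 0 ≤ y := by rw [hy]; positivity
  have hya : y ≤ a + 1 := by
    rw [hy, div_le_iff₀ hb]
    linarith
  have hny : n = ((p : ℝ) + 3) * y := by rw [hy]; field_simp
  rw [← hy]
  have h2 : ((p + 3).choose (w + 2) : ℝ) * ((p : ℝ) + 3)⁻¹ * ((p : ℝ) + 3) =
      ((p + 3).choose (w + 2) : ℝ) := by field_simp
  have hw2 : (0 : ℝ) < (w : ℝ) + 2 := by positivity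
  have h3 : ((p + 3).choose (w + 2) : ℝ) = ((p : ℝ) + 3) * (c1 p w / ((w : ℝ) + 2)) := by
    unfold c1
    field_simp
    linarith
  have hc0 : 0 ≤ c1 p w := by unfold c1; positivity
  have h4 : c1 p w / ((w : ℝ) + 2) ≤ c1 p w / 3 := by
    have : (1 : ℝ) ≤ w := by exact_mod_cast hw
    exact div_le_div_of_nonneg_left hc0 (by norm_num) (by linarith)
  have h5 : y ^ (w + 1) ≤ (a + 1) ^ (w + 1) := pow_le_pow_left₀ hy0 hya _
  calc ((p + 3).choose (w + 2) : ℝ) * y ^ (w + 2)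
      = (c1 p w / ((w : ℝ) + 2)) * y ^ (w + 1) * (((p : ℝ) + 3) * y) := by
        rw [h3]; ring
    _ ≤ (c1 p w / 3) * (a + 1) ^ (w + 1) * (((p : ℝ) + 3) * y) := by
        refine mul_le_mul_of_nonneg_right ?_ (by positivity)
        exact mul_le_mul h4 h5 (by positivity) (by positivity)
    _ = c1 p w / 3 * (a + 1) ^ (w + 1) * n := by rw [hny]

/-- The final arithmetic. -/
theorem fin_arith (X D1 D2 E1 E2 E3 E4 E5 F R1 R4 R5 η κ : ℝ) (hX : 0 ≤ X) (h1 : 0 ≤ D1)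
    (h2 : 0 ≤ D2) (hη : η ≤ 1 / 400) (hκ : κ ≤ 1 / 72)
    (b1 : E1 ≤ 1 / 3 * X * (D1 + D2) + R1) (b2 : E2 ≤ 1 / 400 * X * D1)
    (b3 : E3 ≤ 1 / 5184 * X * D2) (b4 : E4 ≤ R4)
    (b5 : E5 ≤ 2 * X * (η * D1 + κ * D2) + R5) (hF : F ≤ E1 + E2 + E3 + E4) :
    F + E5 + 1 / 10 * X * (D1 + D2) ≤ 1 / 2 * X * (D1 + D2) + (R1 + R4 + R5) := by
  have a1 : 0 ≤ X * D1 := mul_nonneg hX h1
  have a2 : 0 ≤ X * D2 := mul_nonneg hX h2
  have a3 : η * (X * D1) ≤ 1 / 400 * (X * D1) := mul_le_mul_of_nonneg_right hη a1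
  have a4 : κ * (X * D2) ≤ 1 / 72 * (X * D2) := mul_le_mul_of_nonneg_right hκ a2
  have e5 : 2 * X * (η * D1 + κ * D2) = 2 * (η * (X * D1)) + 2 * (κ * (X * D2)) := by ring
  rw [e5] at b5
  have e1 : 1 / 3 * X * (D1 + D2) = 1 / 3 * (X * D1) + 1 / 3 * (X * D2) := by ring
  have e2 : 1 / 10 * X * (D1 + D2) = 1 / 10 * (X * D1) + 1 / 10 * (X * D2) := by ring
  have e3 : 1 / 2 * X * (D1 + D2) = 1 / 2 * (X * D1) + 1 / 2 * (X * D2) := by ring
  have e6 : 1 / 400 * X * D1 = 1 / 400 * (X * D1) := by ring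
  have e7 : 1 / 5184 * X * D2 = 1 / 5184 * (X * D2) := by ring
  rw [e1] at b1
  rw [e6] at b2
  rw [e7] at b3
  rw [e2, e3]
  linarith

end CQT55

open CQT55 in
theorem CQT_thm (hR : CRTStmt) (hZY : ZYGStmt) : CQTStmt := by
  intro p w r hT hp K₀
  have hp3 : 3 ≤ p := hT.p3
  have hp3' : (3 : ℝ) ≤ (p : ℝ) := by exact_mod_cast hp3
  have hw1 : 1 ≤ w := hT.w1
  have hwp : w ≤ p := hT.wp
  have hrp : r ≤ p + 1 := hT.rp
  have hc1 : 1 ≤ c1 p w := by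
    unfold c1
    have : 0 < (p + 2).choose (w + 1) := Nat.choose_pos (by omega)
    exact_mod_cast this
  have hc0 : 0 < c1 p w := by linarith
  have hcc : (((p + 1).choose w : ℕ) : ℝ) ≤ c1 p w := by
    unfold c1
    have : (p + 1).choose w ≤ (p + 2).choose (w + 1) := by
      rw [Nat.choose_succ_succ (p + 1) w]
      exact Nat.le_add_right _ _
    exact_mod_cast this
  obtain ⟨c, hc⟩ : ∃ c : ℝ, c = c1 p w := ⟨_, rfl⟩
  obtain ⟨B, hB⟩ : ∃ B : ℝ, B = ((p : ℝ) + 4) ^ w := ⟨_, rfl⟩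
  have hB1 : 1 ≤ B := by rw [hB]; exact one_le_pow₀ (by linarith)
  have hB0 : 0 < B := by linarith
  obtain ⟨η, hη⟩ : ∃ η : ℝ, η = 1 / (400 * B) := ⟨_, rfl⟩
  have hη0 : 0 < η := by rw [hη]; positivity
  have hηB : η * B = 1 / 400 := by rw [hη]; field_simp
  have hη1 : η ≤ 1 / 400 := by nlinarith
  obtain ⟨Z0, hZ0⟩ : ∃ Z0 : ℝ, Z0 = 400 * B * K₀ := ⟨_, rfl⟩
  have hZ00 : 0 ≤ Z0 := by rw [hZ0]; positivity
  have hK00 : (0 : ℝ) ≤ K₀ := Nat.cast_nonneg _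
  obtain ⟨a₀, ha₀⟩ := exists_nat_ge (Z0 + (p : ℝ) + 3)
  refine ⟨c / 3 * 2 ^ (w + 1) * K₀ + Z0 * 2 ^ w * K₀ +
    2 * c * K₀ ^ 2 * ((p : ℝ) + 4) * (1 + K₀) + 1, by rw [hc]; positivity, a₀, ?_⟩
  intro a ha V _ _ G Q σ hG hPar hσ hQ hH hcd hd12 hD
  have haR : Z0 + (p : ℝ) + 3 ≤ (a : ℝ) := ha₀.trans (by exact_mod_cast ha)
  have ha1 : (1 : ℝ) ≤ a := by linarith
  have ha0 : (0 : ℝ) < a := by linarith
  have hpa : p ≤ a := by
    have : (p : ℝ) ≤ a := by linarith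
    exact_mod_cast this
  set S := un Q with hS
  obtain ⟨κ, hκ⟩ : ∃ κ : ℝ, κ = 1 / (12 * ((p : ℝ) + 3)) := ⟨_, rfl⟩
  have hκ0 : 0 < κ := by rw [hκ]; positivity
  have hκ1 : κ ≤ 1 / 72 := by
    rw [hκ]
    apply one_div_le_one_div_of_le (by norm_num)
    linarith
  obtain ⟨δ, hδ⟩ : ∃ δ : V → ℝ, δ = fun z => (dl G p r a S z : ℝ) := ⟨_, rfl⟩
  have hδz : ∀ z, (dl G p r a S z : ℝ) = δ z := fun z => by rw [hδ]
  have hδ0 : ∀ z, 0 ≤ δ z := fun z => by rw [hδ]; exact Nat.cast_nonneg _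
  have hcδ : ∀ z ∈ S, ((nb G (univ \ S) z).card : ℝ) ≤ δ z := by
    intro z hz
    rw [← hδz]
    exact_mod_cast hcd z hz
  have hδκ : ∀ z ∈ S, δ z ≤ κ * a := by
    intro z hz
    have := hd12 z hz
    rw [hδz] at this
    refine this.trans (le_of_eq ?_)
    rw [hκ]
    ring
  have hDsum : ∑ u ∈ S, δ u ≤ K₀ * a := by
    have : ((∑ u ∈ S, dl G p r a S u : ℕ) : ℝ) = ∑ u ∈ S, δ u := by
      push_cast
      exact sum_congr rfl fun u _ => hδz u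
    rw [← this]
    exact hD
  -- the exceptional set
  obtain ⟨Z, hZd⟩ : ∃ Z : Finset V, Z = S.filter (fun z => η * a ≤ δ z) := ⟨_, rfl⟩
  have hZS : Z ⊆ S := by rw [hZd]; exact filter_subset _ _
  have hZm : ∀ z ∈ Z, η * a ≤ δ z := by
    intro z hz
    rw [hZd] at hz
    exact (mem_filter.1 hz).2
  have hZn : ∀ z ∈ S \ Z, δ z ≤ η * a := by
    intro z hz
    have h1 := mem_sdiff.1 hz
    by_contra h
    exact h1.2 (by rw [hZd]; exact mem_filter.2 ⟨h1.1, (not_le.1 h).le⟩)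
  have hsplit : ∑ u ∈ S, δ u = ∑ u ∈ S \ Z, δ u + ∑ u ∈ Z, δ u := (sum_sdiff hZS).symm
  have hD10 : 0 ≤ ∑ u ∈ S \ Z, δ u := sum_nonneg fun z _ => hδ0 z
  have hD20 : 0 ≤ ∑ u ∈ Z, δ u := sum_nonneg fun z _ => hδ0 z
  have hD2 : ∑ u ∈ Z, δ u ≤ K₀ * a := by linarith
  have hZc : (Z.card : ℝ) ≤ Z0 := by
    have h1 : (Z.card : ℝ) * (η * a) ≤ ∑ u ∈ Z, δ u := by
      rw [← nsmul_eq_mul]
      exact card_nsmul_le_sum Z δ _ hZm
    have h2 : (Z.card : ℝ) * (η * a) ≤ K₀ * a := by linarith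
    have h3 : (Z.card : ℝ) * η ≤ K₀ := by
      refine le_of_mul_le_mul_right ?_ ha0
      linarith
    have h4 : (Z.card : ℝ) * η * (400 * B) ≤ K₀ * (400 * B) :=
      mul_le_mul_of_nonneg_right h3 (by positivity)
    have h5 : (Z.card : ℝ) * η * (400 * B) = Z.card := by
      rw [hη]; field_simp
    rw [h5] at h4
    rw [hZ0]
    linarith
  have hZa : (Z.card : ℝ) ≤ a := by linarith
  -- the power of a
  obtain ⟨A, hA⟩ : ∃ A : ℝ, A = (a : ℝ) ^ w := ⟨_, rfl⟩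
  have hA0 : 0 < A := by rw [hA]; positivity
  have hAs : (a : ℝ) ^ (w + 1) = A * a := by rw [hA, pow_succ]
  -- CRT
  have hcrt := (hR G S Z w ((p + 3) * a + r) hw1 hZS hG.deg).1
  have hcrtR : (kc G univ (w + 3) : ℝ) - kc G (univ \ S) (w + 3) - kc G S (w + 3) ≤
      (∑ q ∈ univ \ S, kc G (nb G S q) (w + 2) : ℕ) +
      (∑ z ∈ S \ Z, (nb G (univ \ S) z).card ^ 2 * ((p + 3) * a + r) ^ w : ℕ) +
      (∑ z ∈ Z, (nb G (univ \ S) z).card ^ (w + 2) : ℕ) +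
      (∑ z ∈ Z, Z.card * (nb G (univ \ S) z).card ^ 2 *
        (Z.card + (nb G (univ \ S) z).card) ^ (w - 1) : ℕ) := by
    have h : ((kc G univ (w + 3) : ℕ) : ℝ) ≤ ((kc G (univ \ S) (w + 3) + kc G S (w + 3) +
      ∑ q ∈ univ \ S, kc G (nb G S q) (w + 2) +
      ∑ z ∈ S \ Z, (nb G (univ \ S) z).card ^ 2 * ((p + 3) * a + r) ^ w +
      ∑ z ∈ Z, (nb G (univ \ S) z).card ^ (w + 2) +
      ∑ z ∈ Z, Z.card * (nb G (univ \ S) z).card ^ 2 *
        (Z.card + (nb G (univ \ S) z).card) ^ (w - 1) : ℕ) : ℝ) := by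
      exact_mod_cast hcrt
    push_cast at h ⊢
    linarith
  -- E1
  have hE1 : ((∑ q ∈ univ \ S, kc G (nb G S q) (w + 2) : ℕ) : ℝ) ≤
      1 / 3 * (c * (A * a)) * (∑ u ∈ S \ Z, δ u + ∑ u ∈ Z, δ u) +
        c / 3 * 2 ^ (w + 1) * K₀ * (A * a) := by
    have hq : ∀ q ∈ univ \ S, (kc G (nb G S q) (w + 2) : ℝ) ≤
        c / 3 * ((a : ℝ) + 1) ^ (w + 1) * ((nb G S q).card : ℝ) := by
      intro q _
      have hCB : CB G (nb G S q) (p + 3) := by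
        have h3 : CB G (nb G univ q) (p + 3) := CB.nb hG.cb (mem_univ q)
        refine h3.mono ?_
        intro z hz
        rw [mem_nb] at hz ⊢
        exact ⟨mem_univ z, hz.2⟩
      have h3 := hZY G (p + 3) (nb G S q) hCB (w + 2)
      refine h3.trans ?_
      rw [hc]
      refine zyk_out p w hw1 _ a (Nat.cast_nonneg _) ha0.le ?_
      have h4 : (nb G S q).card ≤ (p + 3) * a + r :=
        (card_le_card (fun z hz => by
          rw [mem_nb] at hz ⊢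
          exact ⟨mem_univ z, hz.2⟩)).trans (hG.deg q)
      have h5 : ((nb G S q).card : ℝ) ≤ ((p : ℝ) + 3) * a + r := by exact_mod_cast h4
      have h6 : (r : ℝ) ≤ (p : ℝ) + 1 := by exact_mod_cast hrp
      linarith
    have h1 : ((∑ q ∈ univ \ S, kc G (nb G S q) (w + 2) : ℕ) : ℝ) ≤
        c / 3 * ((a : ℝ) + 1) ^ (w + 1) * ∑ u ∈ S, δ u := by
      push_cast
      refine (sum_le_sum hq).trans ?_
      rw [← mul_sum]
      refine mul_le_mul_of_nonneg_left ?_ (by rw [hc]; positivity)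
      have h9 := dbl G (univ \ S) S
      have h10 : ∑ q ∈ univ \ S, ((nb G S q).card : ℝ) =
          ∑ z ∈ S, ((nb G (univ \ S) z).card : ℝ) := by exact_mod_cast h9
      rw [h10]
      exact sum_le_sum hcδ
    have h2 := pow_step (a : ℝ) ha1 w
    rw [← hA, hAs] at h2
    have hS0 : 0 ≤ ∑ u ∈ S, δ u := sum_nonneg fun z _ => hδ0 z
    have h3 : c / 3 * ((a : ℝ) + 1) ^ (w + 1) * ∑ u ∈ S, δ u ≤
        c / 3 * (A * a + (2 ^ (w + 1) - 1) * A) * ∑ u ∈ S, δ u := by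
      refine mul_le_mul_of_nonneg_right ?_ hS0
      exact mul_le_mul_of_nonneg_left h2 (by rw [hc]; positivity)
    have h4 : c / 3 * (2 ^ (w + 1) - 1) * A * ∑ u ∈ S, δ u ≤
        c / 3 * 2 ^ (w + 1) * A * (K₀ * a) := by
      have h41 : (0 : ℝ) ≤ 2 ^ (w + 1) - 1 := by
        have : (1 : ℝ) ≤ 2 ^ (w + 1) := one_le_pow₀ (by norm_num)
        linarith
      refine mul_le_mul ?_ hDsum hS0 (by rw [hc]; positivity)
      refine mul_le_mul_of_nonneg_right ?_ hA0.le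
      refine mul_le_mul_of_nonneg_left (by linarith) (by rw [hc]; positivity)
    have h5 : c / 3 * (A * a + (2 ^ (w + 1) - 1) * A) * ∑ u ∈ S, δ u =
        1 / 3 * (c * (A * a)) * ∑ u ∈ S, δ u + c / 3 * (2 ^ (w + 1) - 1) * A * ∑ u ∈ S, δ u := by
      ring
    have h6 : c / 3 * 2 ^ (w + 1) * A * (K₀ * a) = c / 3 * 2 ^ (w + 1) * K₀ * (A * a) := by ring
    rw [← hsplit]
    linarith
  -- E2
  have hE2 : ((∑ z ∈ S \ Z, (nb G (univ \ S) z).card ^ 2 * ((p + 3) * a + r) ^ w : ℕ) : ℝ) ≤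
      1 / 400 * (c * (A * a)) * ∑ u ∈ S \ Z, δ u := by
    push_cast
    rw [mul_sum]
    refine sum_le_sum fun z hz => ?_
    have h1 := hcδ z (mem_sdiff.1 hz).1
    have h2 := hZn z hz
    have h0 : (0 : ℝ) ≤ ((nb G (univ \ S) z).card : ℝ) := Nat.cast_nonneg _
    have h3 : ((nb G (univ \ S) z).card : ℝ) ^ 2 ≤ η * a * δ z := by
      rw [pow_two]
      exact mul_le_mul (h1.trans h2) h1 h0 (by positivity)
    have h4 : (((p : ℝ) + 3) * a + r) ^ w ≤ B * A := by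
      rw [hB, hA, ← mul_pow]
      refine pow_le_pow_left₀ (by positivity) ?_ _
      have h60 : (r : ℝ) ≤ (p : ℝ) + 1 := by exact_mod_cast hrp
      have h6 : (r : ℝ) ≤ a := by linarith
      linarith
    calc ((nb G (univ \ S) z).card : ℝ) ^ 2 * (((p : ℝ) + 3) * a + r) ^ w
        ≤ (η * a * δ z) * (B * A) :=
          mul_le_mul h3 h4 (by positivity) (mul_nonneg (by positivity) (hδ0 z))
      _ = (η * B) * (A * a) * δ z := by ring
      _ = 1 / 400 * (1 * (A * a)) * δ z := by rw [hηB]; ring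
      _ ≤ 1 / 400 * (c * (A * a)) * δ z := by
          refine mul_le_mul_of_nonneg_right ?_ (hδ0 z)
          refine mul_le_mul_of_nonneg_left ?_ (by norm_num)
          refine mul_le_mul_of_nonneg_right ?_ (by positivity)
          rw [hc]; exact hc1
  -- E3
  have hκa : κ * a ≤ a := by nlinarith
  have hE3 : ((∑ z ∈ Z, (nb G (univ \ S) z).card ^ (w + 2) : ℕ) : ℝ) ≤
      1 / 5184 * (c * (A * a)) * ∑ u ∈ Z, δ u := by
    push_cast
    rw [mul_sum]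
    refine sum_le_sum fun z hz => ?_
    have h1 := hcδ z (hZS hz)
    have h2 := hδκ z (hZS hz)
    have h0 : (0 : ℝ) ≤ ((nb G (univ \ S) z).card : ℝ) := Nat.cast_nonneg _
    have h3 : ((nb G (univ \ S) z).card : ℝ) ^ (w + 1) ≤ (κ * a) ^ (w + 1) :=
      pow_le_pow_left₀ h0 (h1.trans h2) _
    have h4 : κ ^ (w + 1) ≤ 1 / 5184 := by
      calc κ ^ (w + 1) ≤ κ ^ 2 := pow_le_pow_of_le_one hκ0.le (by linarith) (by omega)
        _ ≤ (1 / 72) ^ 2 := pow_le_pow_left₀ hκ0.le hκ1 _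
        _ = 1 / 5184 := by norm_num
    calc ((nb G (univ \ S) z).card : ℝ) ^ (w + 2)
        = ((nb G (univ \ S) z).card : ℝ) ^ (w + 1) * ((nb G (univ \ S) z).card : ℝ) := by
          rw [pow_succ]
      _ ≤ (κ * a) ^ (w + 1) * δ z := mul_le_mul h3 h1 h0 (by positivity)
      _ = κ ^ (w + 1) * (A * a) * δ z := by rw [mul_pow, hAs]
      _ ≤ 1 / 5184 * (c * (A * a)) * δ z := by
          refine mul_le_mul_of_nonneg_right ?_ (hδ0 z)
          refine mul_le_mul h4 ?_ (by positivity) (by norm_num)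
          have : 1 * (A * a) ≤ c * (A * a) :=
            mul_le_mul_of_nonneg_right (by rw [hc]; exact hc1) (by positivity)
          linarith
  -- E4
  have hE4 : ((∑ z ∈ Z, Z.card * (nb G (univ \ S) z).card ^ 2 *
        (Z.card + (nb G (univ \ S) z).card) ^ (w - 1) : ℕ) : ℝ) ≤
      Z0 * 2 ^ w * K₀ * (A * a) := by
    push_cast
    have h5 : ∀ z ∈ Z, (Z.card : ℝ) * ((nb G (univ \ S) z).card : ℝ) ^ 2 *
        ((Z.card : ℝ) + ((nb G (univ \ S) z).card : ℝ)) ^ (w - 1) ≤ Z0 * 2 ^ w * A * δ z := by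
      intro z hz
      have h1 := hcδ z (hZS hz)
      have h2 := hδκ z (hZS hz)
      have h0 : (0 : ℝ) ≤ ((nb G (univ \ S) z).card : ℝ) := Nat.cast_nonneg _
      have h3 : ((nb G (univ \ S) z).card : ℝ) ^ 2 ≤ a * δ z := by
        rw [pow_two]
        exact mul_le_mul (h1.trans (h2.trans hκa)) h1 h0 (by positivity)
      have h4 : ((Z.card : ℝ) + ((nb G (univ \ S) z).card : ℝ)) ^ (w - 1) ≤
          (2 * a) ^ (w - 1) := by
        refine pow_le_pow_left₀ (by positivity) ?_ _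
        linarith
      have h6 : (2 * (a : ℝ)) ^ (w - 1) * a ≤ 2 ^ w * A := by
        rw [mul_pow, hA]
        have e1 : (a : ℝ) ^ w = a ^ (w - 1) * a := by
          rw [← pow_succ, Nat.sub_add_cancel hw1]
        have e2 : (2 : ℝ) ^ (w - 1) ≤ 2 ^ w := pow_le_pow_right₀ (by norm_num) (Nat.sub_le _ _)
        rw [e1]
        have : (0 : ℝ) ≤ a ^ (w - 1) * a := by positivity
        nlinarith
      calc (Z.card : ℝ) * ((nb G (univ \ S) z).card : ℝ) ^ 2 *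
            ((Z.card : ℝ) + ((nb G (univ \ S) z).card : ℝ)) ^ (w - 1)
          ≤ Z0 * (a * δ z) * (2 * a) ^ (w - 1) := by
            refine mul_le_mul ?_ h4 (by positivity) (mul_nonneg hZ00 (mul_nonneg ha0.le (hδ0 z)))
            exact mul_le_mul hZc h3 (by positivity) hZ00
        _ = Z0 * ((2 * a) ^ (w - 1) * a) * δ z := by ring
        _ ≤ Z0 * (2 ^ w * A) * δ z := by
            refine mul_le_mul_of_nonneg_right ?_ (hδ0 z)
            exact mul_le_mul_of_nonneg_left h6 hZ00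
        _ = Z0 * 2 ^ w * A * δ z := by ring
    refine (sum_le_sum h5).trans ?_
    rw [← mul_sum]
    have h7 : Z0 * 2 ^ w * A * ∑ u ∈ Z, δ u ≤ Z0 * 2 ^ w * A * (K₀ * a) :=
      mul_le_mul_of_nonneg_left hD2 (by positivity)
    have h8 : Z0 * 2 ^ w * A * (K₀ * a) = Z0 * 2 ^ w * K₀ * (A * a) := by ring
    linarith
  -- E5
  have hE5 : ((p + 1).choose w : ℝ) * (a : ℝ) ^ w *
      ∑ j, ∑ u ∈ Q j, ((∑ k ∈ univ.erase j, (non G (Q k) u).card : ℕ) : ℝ) ^ 2 ≤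
      2 * (c * (A * a)) * (η * ∑ u ∈ S \ Z, δ u + κ * ∑ u ∈ Z, δ u) +
        2 * c * K₀ ^ 2 * ((p : ℝ) + 4) * (1 + K₀) * (A * a) := by
    have hun : ∀ f : V → ℝ, ∑ u ∈ un Q, f u = ∑ j, ∑ u ∈ Q j, f u := by
      intro f
      unfold un
      rw [Finset.sum_biUnion]
      intro j _ k _ hjk
      exact hPar.dis j k hjk
    have h1 : ∑ j, ∑ u ∈ Q j, ((∑ k ∈ univ.erase j, (non G (Q k) u).card : ℕ) : ℝ) ^ 2 ≤
        ∑ j, ∑ u ∈ Q j, (2 * (K₀ : ℝ) ^ 2 + 2 * δ u ^ 2) := by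
      refine sum_le_sum fun j _ => sum_le_sum fun u hu => ?_
      rw [hH j u hu]
      push_cast
      rw [hδz]
      have h2 : (σ j : ℝ) ≤ K₀ := by exact_mod_cast hσ j
      have h3 : (0 : ℝ) ≤ σ j := Nat.cast_nonneg _
      have h4 : (σ j : ℝ) ^ 2 ≤ (K₀ : ℝ) ^ 2 := pow_le_pow_left₀ h3 h2 _
      nlinarith [sq_nonneg ((σ j : ℝ) - δ u)]
    have h2 : ∑ j, ∑ u ∈ Q j, (2 * (K₀ : ℝ) ^ 2 + 2 * δ u ^ 2) =
        (∑ j, ((Q j).card : ℝ)) * (2 * (K₀ : ℝ) ^ 2) + 2 * ∑ u ∈ S, δ u ^ 2 := by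
      have e1 : ∀ j, ∑ u ∈ Q j, (2 * (K₀ : ℝ) ^ 2 + 2 * δ u ^ 2) =
          ((Q j).card : ℝ) * (2 * (K₀ : ℝ) ^ 2) + ∑ u ∈ Q j, 2 * δ u ^ 2 := by
        intro j
        rw [sum_add_distrib, sum_const, nsmul_eq_mul]
      rw [sum_congr rfl fun j _ => e1 j, sum_add_distrib, ← sum_mul, hS, mul_sum, hun]
    have h3 : ∑ j, ((Q j).card : ℝ) ≤ ((p : ℝ) + 4) * (a + K₀) := by
      have e1 : ∀ j ∈ (univ : Finset (Fin (p + 4))), ((Q j).card : ℝ) ≤ a + K₀ := by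
        intro j _
        exact_mod_cast hQ j
      have := sum_le_card_nsmul _ _ _ e1
      rw [card_univ, Fintype.card_fin, nsmul_eq_mul] at this
      push_cast at this
      exact this
    have h4 : ∑ u ∈ S, δ u ^ 2 ≤ a * (η * ∑ u ∈ S \ Z, δ u + κ * ∑ u ∈ Z, δ u) := by
      rw [← sum_sdiff hZS]
      have e1 : ∑ u ∈ S \ Z, δ u ^ 2 ≤ ∑ u ∈ S \ Z, η * a * δ u := by
        refine sum_le_sum fun u hu => ?_
        rw [pow_two]
        exact mul_le_mul_of_nonneg_right (hZn u hu) (hδ0 u)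
      have e2 : ∑ u ∈ Z, δ u ^ 2 ≤ ∑ u ∈ Z, κ * a * δ u := by
        refine sum_le_sum fun u hu => ?_
        rw [pow_two]
        exact mul_le_mul_of_nonneg_right (hδκ u (hZS hu)) (hδ0 u)
      rw [← mul_sum] at e1 e2
      linarith
    have h5 : (∑ j, ((Q j).card : ℝ)) * (2 * (K₀ : ℝ) ^ 2) ≤
        ((p : ℝ) + 4) * (a * (1 + K₀)) * (2 * (K₀ : ℝ) ^ 2) := by
      refine mul_le_mul_of_nonneg_right (h3.trans ?_) (by positivity)
      refine mul_le_mul_of_nonneg_left ?_ (by positivity)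
      nlinarith
    have h6 : ∑ j, ∑ u ∈ Q j, ((∑ k ∈ univ.erase j, (non G (Q k) u).card : ℕ) : ℝ) ^ 2 ≤
        ((p : ℝ) + 4) * (a * (1 + K₀)) * (2 * (K₀ : ℝ) ^ 2) +
          2 * (a * (η * ∑ u ∈ S \ Z, δ u + κ * ∑ u ∈ Z, δ u)) := by
      linarith
    have h7 : 0 ≤ ((p : ℝ) + 4) * (a * (1 + K₀)) * (2 * (K₀ : ℝ) ^ 2) +
          2 * (a * (η * ∑ u ∈ S \ Z, δ u + κ * ∑ u ∈ Z, δ u)) := by
      have : 0 ≤ η * ∑ u ∈ S \ Z, δ u + κ * ∑ u ∈ Z, δ u :=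
        add_nonneg (mul_nonneg hη0.le hD10) (mul_nonneg hκ0.le hD20)
      positivity
    rw [← hA]
    calc ((p + 1).choose w : ℝ) * A *
          ∑ j, ∑ u ∈ Q j, ((∑ k ∈ univ.erase j, (non G (Q k) u).card : ℕ) : ℝ) ^ 2
        ≤ ((p + 1).choose w : ℝ) * A * (((p : ℝ) + 4) * (a * (1 + K₀)) * (2 * (K₀ : ℝ) ^ 2) +
          2 * (a * (η * ∑ u ∈ S \ Z, δ u + κ * ∑ u ∈ Z, δ u))) :=
          mul_le_mul_of_nonneg_left h6 (by positivity)
      _ ≤ c * A * (((p : ℝ) + 4) * (a * (1 + K₀)) * (2 * (K₀ : ℝ) ^ 2) +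
          2 * (a * (η * ∑ u ∈ S \ Z, δ u + κ * ∑ u ∈ Z, δ u))) := by
          refine mul_le_mul_of_nonneg_right ?_ h7
          refine mul_le_mul_of_nonneg_right ?_ hA0.le
          rw [hc]; exact hcc
      _ = _ := by ring
  have hfin := fin_arith (c * (A * a)) (∑ u ∈ S \ Z, δ u) (∑ u ∈ Z, δ u) _ _ _ _ _ _ _ _ _ η κ
    (by rw [hc]; positivity) hD10 hD20 hη1 hκ1 hE1 hE2 hE3 hE4 hE5 hcrtR
  have hgoal : (kc G univ (w + 3) : ℝ) - kc G (univ \ S) (w + 3) - kc G S (w + 3) +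
        (p + 1).choose w * (a : ℝ) ^ w *
          ∑ j, ∑ u ∈ Q j, ((∑ k ∈ univ.erase j, (non G (Q k) u).card : ℕ) : ℝ) ^ 2 +
        1 / 10 * c * (a : ℝ) ^ (w + 1) * ∑ u ∈ S, δ u ≤
      1 / 2 * c * (a : ℝ) ^ (w + 1) * ∑ u ∈ S, δ u +
        (c / 3 * 2 ^ (w + 1) * K₀ + Z0 * 2 ^ w * K₀ +
    2 * c * K₀ ^ 2 * ((p : ℝ) + 4) * (1 + K₀) + 1) * (a : ℝ) ^ (w + 1) := by
    rw [hsplit, hAs]
    have hAa : 0 ≤ A * a := by positivity
    have e1 : 1 / 10 * c * (A * a) = 1 / 10 * (c * (A * a)) := by ring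
    have e2 : 1 / 2 * c * (A * a) = 1 / 2 * (c * (A * a)) := by ring
    have e3 : (c / 3 * 2 ^ (w + 1) * K₀ + Z0 * 2 ^ w * K₀ +
      2 * c * K₀ ^ 2 * ((p : ℝ) + 4) * (1 + K₀) + 1) * (A * a) =
      (c / 3 * 2 ^ (w + 1) * K₀ * (A * a) + Z0 * 2 ^ w * K₀ * (A * a) +
      2 * c * K₀ ^ 2 * ((p : ℝ) + 4) * (1 + K₀) * (A * a)) + A * a := by ring
    rw [e1, e2, e3]
    linarith
  have e1 : ∀ s : Finset V, ∑ u ∈ s, (dl G p r a S u : ℝ) = ∑ u ∈ s, δ u :=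
    fun s => sum_congr rfl fun u _ => hδz u
  rw [e1, ← hc]
  exact hgoal

end Pool.LD7
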